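import Pool.Agent.Lib_helper75.PQ.TPS
import Pool.Agent.Lib_helper31.PQ.AP

/-! Project PQ (MP_05dcdc_nt), block TPL: lower bound for the number of products of two primes. -/

set_option autoImplicit false

namespace Pool.Agent.PQ

open Finset Filter Topology

theorem tpl_card (X : ℕ) : ((TP X).card : ℝ) =
    ∑ p ∈ prm X, ∑ q ∈ prm (X / p),
      (if p % 4 = 1 ∧ q % 4 = 3 ∧ (p * q) % 8 = 3 then (1 : ℝ) else 0) := by
  have h := tp_sum X (fun _ => 1)
  rw [Finset.sum_const, nsmul_eq_mul, mul_one] at h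
  apply Complex.ofReal_injective
  rw [Complex.ofReal_natCast, h]
  rw [Complex.ofReal_sum]
  refine Finset.sum_congr rfl fun p _ => ?_
  rw [Complex.ofReal_sum]
  refine Finset.sum_congr rfl fun q _ => ?_
  split_ifs <;> simp

theorem tpl_ge (X s : ℕ) (hs : s ≤ X) :
    ∑ p ∈ (prm s).filter (fun p => p % 8 = 5), (((prm (X / p)).filter (fun q => q % 8 = 7)).card : ℝ)
      ≤ ((TP X).card : ℝ) := by
  rw [tpl_card]
  calc ∑ p ∈ (prm s).filter (fun p => p % 8 = 5),
        (((prm (X / p)).filter (fun q => q % 8 = 7)).card : ℝ)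
      ≤ ∑ p ∈ (prm s).filter (fun p => p % 8 = 5), ∑ q ∈ prm (X / p),
        (if p % 4 = 1 ∧ q % 4 = 3 ∧ (p * q) % 8 = 3 then (1 : ℝ) else 0) := by
        refine Finset.sum_le_sum fun p hp => ?_
        have hp5 := (mem_filter.1 hp).2
        rw [Finset.card_filter]
        push_cast
        refine Finset.sum_le_sum fun q _ => ?_
        by_cases hq : q % 8 = 7
        · have h1 : (p * q) % 8 = 3 := by
            rw [Nat.mul_mod, hp5, hq]
          rw [if_pos hq, if_pos ⟨by omega, by omega, h1⟩]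
        · rw [if_neg hq]
          split_ifs <;> norm_num
    _ ≤ _ := by
        refine Finset.sum_le_sum_of_subset_of_nonneg ?_ ?_
        · intro p hp
          have h := tps_mem_prm.1 (mem_filter.1 hp).1
          exact tps_mem_prm.2 ⟨h.1, h.2.trans hs⟩
        · intro p _ _
          refine Finset.sum_nonneg fun q _ => ?_
          split_ifs <;> norm_num

theorem tp_lower_of
    (hpi : ∀ (m : ℕ), 1 ≤ m → ∀ (a : ℕ), Nat.Coprime a m →
      Tendsto (fun x : ℕ => (((prm x).filter (fun q => q % m = a % m)).card : ℝ) / (x / Real.log x))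
        atTop (𝓝 (1 / (Nat.totient m : ℝ))))
    (hinv : ∀ (m : ℕ), 1 ≤ m → ∀ (a : ℕ), Nat.Coprime a m →
      ∃ c : ℝ, 0 < c ∧ ∃ x₀ : ℕ, ∀ x : ℕ, x₀ ≤ x →
        c * Real.log (Real.log x) ≤ ∑ p ∈ (prm x).filter (fun p => p % m = a % m), (1 : ℝ) / p) :
    ∃ c : ℝ, 0 < c ∧ ∃ X₀ : ℕ, ∀ X : ℕ, X₀ ≤ X →
      c * (X * Real.log (Real.log X) / Real.log X) ≤ ((TP X).card : ℝ) := by
  obtain ⟨c, hc, x₀, hx₀⟩ := hinv 8 (by norm_num) 5 (by norm_num)
  have h1 := hpi 8 (by norm_num) 7 (by norm_num)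
  have ht : (Nat.totient 8 : ℝ) = 4 := by
    have : Nat.totient 8 = 4 := by decide
    rw [this]
    norm_num
  rw [ht] at h1
  have h2 : ∀ᶠ x : ℕ in atTop, (1 / 8 : ℝ) <
      (((prm x).filter (fun q => q % 8 = 7 % 8)).card : ℝ) / (x / Real.log x) :=
    h1.eventually (lt_mem_nhds (by norm_num))
  obtain ⟨y₀, hy₀⟩ := eventually_atTop.1 h2
  have hll : Tendsto (fun X : ℕ => Real.log (Real.log X)) atTop atTop :=
    Real.tendsto_log_atTop.comp (Real.tendsto_log_atTop.comp tendsto_natCast_atTop_atTop)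
  obtain ⟨X₁, hX₁⟩ := eventually_atTop.1 (hll.eventually (eventually_ge_atTop (2 * Real.log 4)))
  refine ⟨c / 32, by positivity, max X₁ ((max (max x₀ y₀) 3) ^ 2), fun X hX => ?_⟩
  have hXX₁ : X₁ ≤ X := le_trans (le_max_left _ _) hX
  have hM : (max (max x₀ y₀) 3) ^ 2 ≤ X := le_trans (le_max_right _ _) hX
  set s := Nat.sqrt X with hs
  have hMs : max (max x₀ y₀) 3 ≤ s := by
    rw [hs, Nat.le_sqrt']
    exact hM
  have hsx : x₀ ≤ s := le_trans (le_trans (le_max_left _ _) (le_max_left _ _)) hMs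
  have hsy : y₀ ≤ s := le_trans (le_trans (le_max_right _ _) (le_max_left _ _)) hMs
  have hs3 : 3 ≤ s := le_trans (le_max_right _ _) hMs
  have hssX : s * s ≤ X := Nat.sqrt_le X
  have hsX : s ≤ X := le_trans (Nat.le_mul_self s) hssX
  have hX9 : 9 ≤ X := by nlinarith
  have hXpos : (0 : ℝ) < X := by exact_mod_cast (by omega : 0 < X)
  have hlogX : 0 < Real.log X := Real.log_pos (by exact_mod_cast (by omega : 1 < X))
  -- `log s ≥ log X / 4`
  have hs4 : X ≤ s ^ 4 := by
    have h3 : X < (s + 1) * (s + 1) := Nat.lt_succ_sqrt X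
    have h4 : s + 1 ≤ s * s := by nlinarith
    have h5 : (s + 1) * (s + 1) ≤ (s * s) * (s * s) := Nat.mul_le_mul h4 h4
    have h6 : s ^ 4 = (s * s) * (s * s) := by ring
    omega
  have hspos : (0 : ℝ) < s := by exact_mod_cast (by omega : 0 < s)
  have hlogs : Real.log X ≤ 4 * Real.log s := by
    have h7 : Real.log X ≤ Real.log ((s : ℝ) ^ 4) :=
      Real.log_le_log hXpos (by exact_mod_cast hs4)
    rw [Real.log_pow] at h7
    exact_mod_cast h7
  have hll2 : Real.log (Real.log X) / 2 ≤ Real.log (Real.log s) := by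
    have h8 : Real.log (Real.log X / 4) ≤ Real.log (Real.log s) :=
      Real.log_le_log (by positivity) (by linarith)
    rw [Real.log_div (by positivity) (by norm_num)] at h8
    have h9 := hX₁ X hXX₁
    linarith
  -- the terms
  have hterm : ∀ p ∈ (prm s).filter (fun p => p % 8 = 5),
      X / (16 * Real.log X) * (1 / p) ≤ (((prm (X / p)).filter (fun q => q % 8 = 7)).card : ℝ) := by
    intro p hp
    obtain ⟨hpp, hps⟩ := tps_mem_prm.1 (mem_filter.1 hp).1
    have hp0 : (0 : ℝ) < p := by exact_mod_cast hpp.pos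
    set y := X / p with hy
    have hsy' : s ≤ y := by
      rw [hy, Nat.le_div_iff_mul_le hpp.pos]
      exact le_trans (Nat.mul_le_mul_left _ hps) hssX
    have hyX : y ≤ X := Nat.div_le_self _ _
    have hy1 : (1 : ℝ) < y := by exact_mod_cast (by omega : 1 < y)
    have hy0 : (0 : ℝ) < y := by linarith
    have hlogy : 0 < Real.log y := Real.log_pos hy1
    have hlogyX : Real.log y ≤ Real.log X := Real.log_le_log hy0 (by exact_mod_cast hyX)
    have h3 := hy₀ y (by omega)
    rw [lt_div_iff₀ (by positivity)] at h3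
    have h4 : (X : ℝ) / p ≤ 2 * y := by
      rw [div_le_iff₀ hp0]
      have h5 : X < (y + 1) * p := by
        rw [hy, mul_comm]
        exact Nat.lt_mul_div_succ X hpp.pos
      have h6 : X ≤ 2 * y * p := by nlinarith
      exact_mod_cast h6
    have h5 : X / (16 * Real.log X) * (1 / p) = (X / p) / (16 * Real.log X) := by
      field_simp
    rw [h5]
    calc (X / p : ℝ) / (16 * Real.log X) ≤ (2 * y) / (16 * Real.log X) := by gcongr
      _ ≤ (2 * y) / (16 * Real.log y) := by gcongr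
      _ = 1 / 8 * (y / Real.log y) := by field_simp; ring
      _ ≤ _ := by
        norm_num at h3 ⊢
        exact h3.le
  calc c / 32 * (X * Real.log (Real.log X) / Real.log X)
      = X / (16 * Real.log X) * (c * (Real.log (Real.log X) / 2)) := by
        field_simp
        ring
    _ ≤ X / (16 * Real.log X) * (c * Real.log (Real.log s)) := by gcongr
    _ ≤ X / (16 * Real.log X) * ∑ p ∈ (prm s).filter (fun p => p % 8 = 5 % 8), (1 : ℝ) / p := by
        gcongr
        exact hx₀ s hsx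
    _ = ∑ p ∈ (prm s).filter (fun p => p % 8 = 5), X / (16 * Real.log X) * (1 / p) := by
        rw [Finset.mul_sum]
    _ ≤ ∑ p ∈ (prm s).filter (fun p => p % 8 = 5),
        (((prm (X / p)).filter (fun q => q % 8 = 7)).card : ℝ) := Finset.sum_le_sum hterm
    _ ≤ _ := tpl_ge X s hsX

/-- lower bound -/
theorem tp_lower : ∃ c : ℝ, 0 < c ∧ ∃ X₀ : ℕ, ∀ X : ℕ, X₀ ≤ X →
    c * (X * Real.log (Real.log X) / Real.log X) ≤ ((TP X).card : ℝ) :=
  tp_lower_of pi_ap inv_ap

end Pool.Agent.PQ
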