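import Pool.Agent.Lib_helper60.PQ.Defs

/-! Project PQ (MP_05dcdc_nt), block TPS: sums over products of two primes. -/

set_option autoImplicit false

namespace Pool.Agent.PQ

open Finset

theorem tps_mem_prm {x p : ℕ} : p ∈ prm x ↔ p.Prime ∧ p ≤ x := by
  simp only [prm, mem_filter, mem_Icc]
  exact ⟨fun h => ⟨h.2, h.1.2⟩, fun h => ⟨⟨h.1.one_le, h.2⟩, h.1⟩⟩

theorem tps_mem_TP {X n : ℕ} :
    n ∈ TP X ↔ (1 ≤ n ∧ n ≤ X) ∧ n % 8 = 3 ∧ n.primeFactorsList.length = 2 := by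
  simp only [TP, mem_filter, mem_Icc]

theorem tps_len {p q : ℕ} (hp : p.Prime) (hq : q.Prime) :
    (p * q).primeFactorsList.length = 2 := by
  rw [(Nat.perm_primeFactorsList_mul hp.ne_zero hq.ne_zero).length_eq,
    Nat.primeFactorsList_prime hp, Nat.primeFactorsList_prime hq]
  rfl

theorem tps_factor {n : ℕ} (hn : n ≠ 0) (h : n.primeFactorsList.length = 2) :
    ∃ p q : ℕ, p.Prime ∧ q.Prime ∧ n = p * q := by
  obtain ⟨p, q, hpq⟩ := List.length_eq_two.1 h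
  refine ⟨p, q, Nat.prime_of_mem_primeFactorsList (n := n) (by rw [hpq]; simp),
    Nat.prime_of_mem_primeFactorsList (n := n) (by rw [hpq]; simp), ?_⟩
  rw [← Nat.prod_primeFactorsList hn, hpq]
  simp

theorem tps_unique {p q p' q' : ℕ} (hp : p.Prime) (_hq : q.Prime) (hp' : p'.Prime) (hq' : q'.Prime)
    (h1 : p % 4 = 1) (h2 : q' % 4 = 3) (h : p * q = p' * q') : p = p' ∧ q = q' := by
  have hd : p ∣ p' * q' := ⟨q, h.symm⟩
  rcases (hp.dvd_mul).1 hd with h3 | h3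
  · have h4 : p = p' := (Nat.prime_dvd_prime_iff_eq hp hp').1 h3
    subst h4
    exact ⟨rfl, Nat.eq_of_mul_eq_mul_left hp.pos h⟩
  · have h4 : p = q' := (Nat.prime_dvd_prime_iff_eq hp hq').1 h3
    subst h4
    omega

/-- `n ∈ TP X` corresponds to a unique pair `(p, q)`, `Pair p q`, `p q ≤ X` -/
theorem tp_sum (X : ℕ) (f : ℕ → ℂ) :
    ∑ n ∈ TP X, f n = ∑ p ∈ prm X, ∑ q ∈ prm (X / p),
      (if p % 4 = 1 ∧ q % 4 = 3 ∧ (p * q) % 8 = 3 then f (p * q) else 0) := by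
  rw [Finset.sum_sigma', ← Finset.sum_filter]
  symm
  refine Finset.sum_bij (fun x _ => x.1 * x.2) ?_ ?_ ?_ ?_
  · rintro ⟨p, q⟩ hx
    simp only [mem_filter, mem_sigma, tps_mem_prm] at hx
    obtain ⟨⟨⟨hp, hpX⟩, hq, hqX⟩, h1, h2, h3⟩ := hx
    rw [tps_mem_TP]
    refine ⟨⟨Nat.mul_pos hp.pos hq.pos, ?_⟩, h3, tps_len hp hq⟩
    have := (Nat.le_div_iff_mul_le hp.pos).1 hqX
    rw [mul_comm]
    exact this
  · rintro ⟨p, q⟩ hx ⟨p', q'⟩ hx' h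
    simp only [mem_filter, mem_sigma, tps_mem_prm] at hx hx'
    obtain ⟨⟨⟨hp, -⟩, hq, -⟩, h1, h2, -⟩ := hx
    obtain ⟨⟨⟨hp', -⟩, hq', -⟩, h1', h2', -⟩ := hx'
    obtain ⟨rfl, rfl⟩ := tps_unique hp hq hp' hq' h1 h2' h
    rfl
  · intro n hn
    rw [tps_mem_TP] at hn
    obtain ⟨⟨hn1, hnX⟩, hn8, hl⟩ := hn
    obtain ⟨p, q, hp, hq, rfl⟩ := tps_factor (by omega) hl
    have h4 : (p * q) % 4 = 3 := by omega
    have h5 : ((p % 4) * (q % 4)) % 4 = 3 := by rw [← Nat.mul_mod]; exact h4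
    have hp4 : p % 4 < 4 := Nat.mod_lt _ (by norm_num)
    have hq4 : q % 4 < 4 := Nat.mod_lt _ (by norm_num)
    have h6 : (p % 4 = 1 ∧ q % 4 = 3) ∨ (p % 4 = 3 ∧ q % 4 = 1) := by
      generalize p % 4 = a at h5 hp4 ⊢
      generalize q % 4 = b at h5 hq4 ⊢
      interval_cases a <;> interval_cases b <;> simp_all
    rcases h6 with ⟨h7, h8⟩ | ⟨h7, h8⟩
    · refine ⟨⟨p, q⟩, ?_, rfl⟩
      simp only [mem_filter, mem_sigma, tps_mem_prm]
      refine ⟨⟨⟨hp, le_trans (Nat.le_mul_of_pos_right _ hq.pos) hnX⟩, hq, ?_⟩, h7, h8, hn8⟩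
      rw [Nat.le_div_iff_mul_le hp.pos, mul_comm]
      exact hnX
    · refine ⟨⟨q, p⟩, ?_, mul_comm q p⟩
      simp only [mem_filter, mem_sigma, tps_mem_prm]
      refine ⟨⟨⟨hq, le_trans (Nat.le_mul_of_pos_left _ hp.pos) hnX⟩, hp, ?_⟩, h8, h7, ?_⟩
      · rw [Nat.le_div_iff_mul_le hq.pos]
        exact hnX
      · rw [mul_comm]
        exact hn8
  · rintro ⟨p, q⟩ _
    rfl

end Pool.Agent.PQ
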